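import Pool.Agent.Y114.OP.Stm3
import Pool.Agent.Y25.OP.RootB

/-!
# Project OP2: bounded relations between eigenvalues near a given element, with arbitrary ones
-/

set_option autoImplicit false

open Polynomial Filter Topology

namespace Pool.Agent.Y261.OP

open Pool.Agent.Y25.OP

/-- The bounded relations near two tuples of nonzero numbers. -/
theorem near2 {L : Type*} [NormedField L] (B M N N' : ℕ) (hM : 0 < M) (z : Fin N → L)
    (y : Fin N' → L) (hz : ∀ j, z j ≠ 0) (hy : ∀ j, y j ≠ 0) :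
    ∃ η : ℝ, 0 < η ∧ ∀ (w : Fin N → L) (v : Fin N' → L), (∀ j, ‖w j - z j‖ < η) →
      (∀ j, ‖v j - y j‖ < η) → ∀ (e : Fin N → ℤ) (f : Fin N' → ℤ), (∀ j, |e j| ≤ B) →
      (∀ j, |f j| ≤ B) → ((∏ j, w j ^ e j) * ∏ j, v j ^ f j) ^ M = 1 →
        ((∏ j, z j ^ e j) * ∏ j, y j ^ f j) ^ M = 1 := by
  have h0 : ∀ j, (Fin.append z y) j ≠ 0 := by
    intro j
    refine Fin.addCases (fun i => ?_) (fun i => ?_) j
    · rw [Fin.append_left]; exact hz i
    · rw [Fin.append_right]; exact hy i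
  obtain ⟨ρ, hρ, h2⟩ := Metric.eventually_nhds_iff.1 (rel_near B M (N + N') hM _ h0)
  refine ⟨ρ, hρ, fun w v hw hv e f he hf h => ?_⟩
  have hd : dist (Fin.append w v) (Fin.append z y) < ρ := by
    rw [dist_pi_lt_iff hρ]
    intro j
    refine Fin.addCases (fun i => ?_) (fun i => ?_) j
    · rw [Fin.append_left, Fin.append_left, dist_eq_norm]; exact hw i
    · rw [Fin.append_right, Fin.append_right, dist_eq_norm]; exact hv i
  have hb : ∀ j, |(Fin.append e f) j| ≤ (B : ℤ) := by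
    intro j
    refine Fin.addCases (fun i => ?_) (fun i => ?_) j
    · rw [Fin.append_left]; exact he i
    · rw [Fin.append_right]; exact hf i
  have h3 := (h2 hd (Fin.append e f) hb).1
  rw [Fin.prod_univ_add, Fin.prod_univ_add] at h3
  simp only [Fin.append_left, Fin.append_right] at h3
  by_contra hcon
  exact h3 hcon h

/-- The bounded relations between the roots. -/
theorem rel2 {K L : Type*} [NormedField K] [NormedField L] [NormedAlgebra K L]
    [IsAlgClosed L] {Γ : Type*} [TopologicalSpace Γ] (γ₀ : Γ) (ι : Type*) [Fintype ι] (n : ι → ℕ)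
    (P : ι → Γ → K[X]) (hm : ∀ i γ, (P i γ).Monic) (hd : ∀ i γ, (P i γ).natDegree = n i)
    (hc : ∀ i j, Continuous fun γ => (P i γ).coeff j) (h0 : ∀ i, aeval (0 : L) (P i γ₀) ≠ 0)
    (B M N N' : ℕ) (k : Fin N → ι) (k' : Fin N' → ι) (hM : 0 < M) :
    ∀ᶠ γ in 𝓝 γ₀, ∀ z : Fin N → L, (∀ j, aeval (z j) (P (k j) γ₀) = 0) →
      ∃ z' : Fin N → L, (∀ j, aeval (z' j) (P (k j) γ) = 0) ∧
      ∀ y' : Fin N' → L, (∀ j, aeval (y' j) (P (k' j) γ) = 0) →
      ∃ y : Fin N' → L, (∀ j, aeval (y j) (P (k' j) γ₀) = 0) ∧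
      ∀ (e : Fin N → ℤ) (f : Fin N' → ℤ), (∀ j, |e j| ≤ B) → (∀ j, |f j| ≤ B) →
        ((∏ j, z' j ^ e j) * ∏ j, y' j ^ f j) ^ M = 1 →
          ((∏ j, z j ^ e j) * ∏ j, y j ^ f j) ^ M = 1 := by
  classical
  have hroot : ∀ i, {a : L | aeval a (P i γ₀) = 0}.Finite := by
    intro i
    have h1 : {a : L | aeval a (P i γ₀) = 0} ⊆ ((P i γ₀).aroots L).toFinset := by
      intro a ha
      rw [Finset.mem_coe, Multiset.mem_toFinset, mem_aroots]
      exact ⟨(hm i γ₀).ne_zero, ha⟩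
    exact (Finset.finite_toSet _).subset h1
  have hne : ∀ i (a : L), aeval a (P i γ₀) = 0 → a ≠ 0 := by
    rintro i a ha rfl
    exact h0 i ha
  have hZ : ∀ (R : ℕ) (k : Fin R → ι),
      {z : Fin R → L | ∀ j, aeval (z j) (P (k j) γ₀) = 0}.Finite := by
    intro R k
    refine (Set.Finite.pi fun j : Fin R => hroot (k j)).subset ?_
    intro z hz j _
    exact hz j
  have hη : ∃ η : ℝ, 0 < η ∧ ∀ z : Fin N → L, (∀ j, aeval (z j) (P (k j) γ₀) = 0) →
      ∀ y : Fin N' → L, (∀ j, aeval (y j) (P (k' j) γ₀) = 0) →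
      ∀ (w : Fin N → L) (v : Fin N' → L), (∀ j, ‖w j - z j‖ < η) →
      (∀ j, ‖v j - y j‖ < η) → ∀ (e : Fin N → ℤ) (f : Fin N' → ℤ), (∀ j, |e j| ≤ B) →
      (∀ j, |f j| ≤ B) → ((∏ j, w j ^ e j) * ∏ j, v j ^ f j) ^ M = 1 →
        ((∏ j, z j ^ e j) * ∏ j, y j ^ f j) ^ M = 1 := by
    have h1 : ∀ᶠ η in 𝓝[>] (0 : ℝ),
        ∀ z ∈ {z : Fin N → L | ∀ j, aeval (z j) (P (k j) γ₀) = 0},
        ∀ y ∈ {y : Fin N' → L | ∀ j, aeval (y j) (P (k' j) γ₀) = 0},
        ∀ (w : Fin N → L) (v : Fin N' → L), (∀ j, ‖w j - z j‖ < η) →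
        (∀ j, ‖v j - y j‖ < η) → ∀ (e : Fin N → ℤ) (f : Fin N' → ℤ), (∀ j, |e j| ≤ B) →
        (∀ j, |f j| ≤ B) → ((∏ j, w j ^ e j) * ∏ j, v j ^ f j) ^ M = 1 →
          ((∏ j, z j ^ e j) * ∏ j, y j ^ f j) ^ M = 1 := by
      rw [Filter.eventually_all_finite (hZ N k)]
      intro z hz
      rw [Filter.eventually_all_finite (hZ N' k')]
      intro y hy
      obtain ⟨ρ, hρ, h2⟩ := near2 B M N N' hM z y (fun j => hne _ _ (hz j))
        (fun j => hne _ _ (hy j))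
      filter_upwards [Ioo_mem_nhdsGT hρ] with η hη w v hw hv
      exact h2 w v (fun j => (hw j).trans hη.2) (fun j => (hv j).trans hη.2)
    obtain ⟨η, h2, h3⟩ := (h1.and self_mem_nhdsWithin).exists
    exact ⟨η, h3, fun z hz y hy => h2 z hz y hy⟩
  obtain ⟨η, hη0, hη⟩ := hη
  have hcl : ∀ᶠ γ in 𝓝 γ₀, ∀ i ∈ (Finset.univ : Finset ι),
      (∀ a : L, aeval a (P i γ₀) = 0 → ∃ b : L, aeval b (P i γ) = 0 ∧ ‖b - a‖ < η) ∧
      ∀ b : L, aeval b (P i γ) = 0 → ∃ a : L, aeval a (P i γ₀) = 0 ∧ ‖b - a‖ < η := by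
    rw [Filter.eventually_all_finset]
    intro i _
    exact roots_close γ₀ (n i) (P i) (hm i) (hd i) (hc i) η hη0
  filter_upwards [hcl] with γ hγ
  intro z hz
  choose z' h1 h2 using fun j => (hγ (k j) (Finset.mem_univ _)).1 (z j) (hz j)
  refine ⟨z', h1, fun y' hy' => ?_⟩
  choose y h3 h4 using fun j => (hγ (k' j) (Finset.mem_univ _)).2 (y' j) (hy' j)
  exact ⟨y, h3, fun e f he hf h => hη z hz y h3 z' y' h2 h4 e f he hf h⟩

/-- ROOT2 -/
theorem root2 : Pool.Agent.Y114.OP.S_ROOT2 := by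
  intro ℓ _ ι _ n Γ _ _ _ ρ hρ B M N N' k k' γ₀ hM
  have hmat : ∀ i γ, (ρ i γ).charpoly = (LinearMap.toMatrix' (ρ i γ)).charpoly := by
    intro i γ
    rw [← Matrix.charpoly_toLin', Matrix.toLin'_toMatrix']
  have h1 := rel2 (K := ℚ_[ℓ]) (L := PadicAlgCl ℓ) γ₀ ι n (fun i γ => (ρ i γ).charpoly)
    (fun i γ => LinearMap.charpoly_monic _)
    (fun i γ => by rw [LinearMap.charpoly_natDegree, Module.finrank_fin_fun])
    (fun i j => by
      have h2 := (continuous_coeff_charpoly (K := ℚ_[ℓ]) (N := n i) j).comp (hρ i)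
      refine h2.congr fun γ => ?_
      rw [hmat]
      rfl)
    (fun i => by
      intro h2
      rw [← coeff_zero_eq_aeval_zero'] at h2
      have h3 : (ρ i γ₀).charpoly.coeff 0 = 0 := by
        have h4 : Function.Injective (algebraMap ℚ_[ℓ] (PadicAlgCl ℓ)) :=
          (algebraMap ℚ_[ℓ] (PadicAlgCl ℓ)).injective
        exact (map_eq_zero_iff _ h4).1 h2
      have h5 : LinearMap.det (ρ i γ₀) = 0 := by
        rw [LinearMap.det_eq_sign_charpoly_coeff, h3, mul_zero]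
      have h6 : LinearMap.det (ρ i γ₀) * LinearMap.det (ρ i γ₀⁻¹) = 1 := by
        rw [← map_mul, ← map_mul, mul_inv_cancel, map_one, map_one]
      rw [h5, zero_mul] at h6
      exact zero_ne_one h6) B M N N' k k' hM
  obtain ⟨O, hO1, hO2, hO3⟩ := mem_nhds_iff.1 h1
  exact ⟨O, hO2, hO3, fun γ hγ => hO1 hγ⟩

end Pool.Agent.Y261.OP
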